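import Mathlib
import Pool.Agent.H26.IEOp

namespace Pool.Agent.Results.MP_766cb7_co.NotBMatroid

/-- `f` is an IE-operator on the type `α`: extensive, monotone, (cl3), (cl4'). -/
def IsIE {α : Type} (f : Set α → Set α) : Prop :=
  (∀ A, A ⊆ f A) ∧ (∀ A B, A ⊆ B → f A ⊆ f B) ∧ (∀ A, f (f A) = f A) ∧
  (∀ A B q, q ∈ f B → q ∉ f (B \ A) → ∃ a ∈ A, a ∈ f (insert q (B \ {a})))

/-- Condition (C). -/
def CondC {α : Type} (f : Set α → Set α) : Prop :=
  ∀ B, ∀ q ∈ f B, ∃ U : Set α,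
    Minimal (fun W : Set α => W ⊆ B ∧ q ∈ f W) U ∧ ∀ a ∈ U, a ∉ f (U \ {a})

/-- Condition (H). -/
def CondH {α : Type} (f : Set α → Set α) : Prop :=
  ∀ B q, q ∉ f B → ∃ V : Set α,
    Maximal (fun W : Set α => B ⊆ W ∧ q ∉ f W) V ∧ f (insert q V) = Set.univ

open Pool.Agent.H26.IEOp in
theorem result : ∃ (α : Type) (f : Set α → Set α), IsIE f ∧ CondC f ∧ CondH f ∧
    ∀ M : Matroid α, M.E = Set.univ → M.closure ≠ f := by
  obtain ⟨𝓑, hg, h0, hc, hY⟩ := exists_family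
  refine ⟨Gd, op 𝓑, ⟨op_ext 𝓑, fun X Y hXY => op_mono 𝓑 hXY, op_idem 𝓑,
    fun X Y p h1 h2 => op_cl4 hg X Y p h1 h2⟩, fun Y p hp => op_C hg h0 Y p hp,
    fun Y p hp => op_H hg hc Y p hp, ?_⟩
  intro M hE hM
  have hM' : ∀ X, M.closure X = op 𝓑 X := fun X => congrFun hM X
  have hJ : M.Indep J := by
    rw [Matroid.indep_iff_forall_notMem_closure_sdiff (by rw [hE]; exact Set.subset_univ _)]
    intro e he
    rw [hM', op_nspan]
    · exact fun hc => hc.2 rfl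
    · rintro ⟨B, hB, hBJ⟩
      refine Set.not_infinite.2 Set.finite_empty ((hY ∅).1 ⟨B, hB, ?_⟩)
      exact hBJ.trans (Set.sdiff_subset.trans Set.subset_union_left)
  obtain ⟨I, hI, hJI⟩ := hJ.subset_isBasis_of_subset (X := J ∪ Set.range mid)
    Set.subset_union_left (by rw [hE]; exact Set.subset_univ _)
  have e := between hJI hI.subset
  by_cases hfin : {n | mid n ∈ I}.Finite
  · have h1 := hI.subset_closure
    rw [hM', op_nspan] at h1
    · obtain ⟨n, hn⟩ := hfin.infinite_compl.nonempty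
      exact hn (h1 (Or.inr ⟨n, rfl⟩))
    · rw [e]
      exact fun hc => (hY _).1 hc hfin
  · have hinf : {n | mid n ∈ I}.Infinite := hfin
    obtain ⟨n, hn⟩ := hinf.nonempty
    have h1 := hI.indep.notMem_closure_sdiff_of_mem hn
    rw [hM', op_span] at h1
    · exact h1 (Set.mem_univ _)
    · obtain ⟨B, hB, hBs⟩ := (hY _).2 (hinf.sdiff (Set.finite_singleton n))
      refine ⟨B, hB, hBs.trans ?_⟩
      rintro x (hx | ⟨m, hm, rfl⟩)
      · exact ⟨hJI hx, fun hc => mid_not_J n (hc ▸ hx)⟩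
      · exact ⟨hm.1, fun hc => hm.2 (mid_inj hc)⟩

end Pool.Agent.Results.MP_766cb7_co.NotBMatroid
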